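import Pool.Agent.P.MP_c09211_an.Sh.Final

set_option autoImplicit false

namespace Pool.Agent.P.MP_c09211_an.Old.SharpThreshold

open Pool.Agent.P.MP_c09211_an

theorem result :
    (∀ n : ℕ, 2 ≤ n → n + 1 - Nat.sqrt (n + 1) ≤ n1 n ∧ n1 n ≤ n + 2 - Nat.sqrt (n + 1) ∧
      (Nat.sqrt (n + 1) ^ 2 + Nat.sqrt (n + 1) ≤ n + 1 → n1 n = n + 1 - Nat.sqrt (n + 1))) ∧
    ∃ D : ℝ, Real.cos D = D ∧ ∀ ε : ℝ, 0 < ε → ∃ n₀ : ℕ, ∀ n ≥ n₀,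
      ((Nat.sqrt (n + 1) : ℝ) ^ 2 + (1 / 2 + ε) * Nat.sqrt (n + 1) ≤ n + 1 →
        n1 n = n + 1 - Nat.sqrt (n + 1)) ∧
      ((n : ℝ) + 1 ≤ (Nat.sqrt (n + 1) : ℝ) ^ 2 + (1 - Real.sin D - ε) * Nat.sqrt (n + 1) →
        n1 n = n + 2 - Nat.sqrt (n + 1)) :=
  ⟨Sh.within_one, Sh.sharp⟩

end Pool.Agent.P.MP_c09211_an.Old.SharpThreshold
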